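import Pool.Agent.Helper97.TI.Defs

/-!
Module GOOD2: no socle and avoiding the other associated primes gives regularity.
-/

set_option autoImplicit false
open MvPolynomial

namespace TI

section GOOD
variable {κ : ℕ} {Q : Type} [AddCommGroup Q] [Module (RR κ) Q]

/-- GOOD2: no socle and avoiding the other associated primes gives regularity -/
theorem reg_of_good [Module.Finite (RR κ) Q] {B : Submodule (RR κ) Q} {a : RR κ}
    (h : ∀ 𝔮 ∈ associatedPrimes (RR κ) (Q ⧸ B), 𝔮 ≠ mm κ → a ∉ 𝔮) (hs : ¬ ∃ s, IsSoc B s) :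
    Reg a B := by
  intro m hm
  by_contra hmB
  have hx : (Submodule.Quotient.mk m : Q ⧸ B) ≠ 0 := by
    rwa [Ne, Submodule.Quotient.mk_eq_zero]
  obtain ⟨P, hP, hle⟩ := exists_le_isAssociatedPrime_of_isNoetherianRing (RR κ)
    (Submodule.Quotient.mk m : Q ⧸ B) hx
  have haP : a ∈ P := by
    apply hle
    rw [Submodule.mem_colon_singleton, Submodule.mem_bot, ← Submodule.Quotient.mk_smul,
      Submodule.Quotient.mk_eq_zero]
    exact hm
  by_cases hPm : P = mm κ
  · subst hPm
    obtain ⟨-, y, hy⟩ := isAssociatedPrime_iff.1 hP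
    obtain ⟨s, rfl⟩ := Submodule.Quotient.mk_surjective B y
    refine hs ⟨s, ?_, ?_⟩
    · intro hsB
      have h1 : (1 : RR κ) ∈ mm κ := by
        rw [hy, Submodule.mem_colon_singleton, Submodule.mem_bot, ← Submodule.Quotient.mk_smul,
          Submodule.Quotient.mk_eq_zero, one_smul]
        exact hsB
      exact hP.isPrime.ne_top ((Ideal.eq_top_iff_one _).2 h1)
    · intro i
      have h1 : (X i : RR κ) ∈ mm κ := Ideal.subset_span ⟨i, rfl⟩
      rw [hy, Submodule.mem_colon_singleton, Submodule.mem_bot, ← Submodule.Quotient.mk_smul,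
          Submodule.Quotient.mk_eq_zero] at h1
      exact h1
  · exact h P hP hPm haP

end GOOD

end TI
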